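import Pool.Agent.H76.CW.StmtC

/-! Row ISB of the board cw_modules: isomorphisms of binary structures. -/

set_option autoImplicit false

open Set Pool.Agent.TK Pool.Agent.H71.VK

namespace Pool.Agent.CW

theorem pf_ISB {C : Type} : T_ISB C := by
  intro c0 n M M' h hM hM'
  constructor
  · intro H
    refine ⟨fun x => H.2 [x], fun x y => ?_⟩
    have h1 := H.2 [x, y]
    unfold bn
    rw [h1]
    rfl
  · rintro ⟨H1, H2⟩
    refine ⟨fun u v => ?_, fun l => ?_⟩
    · rw [hM.1, hM'.1]
      have : (u ≠ v) ↔ (h u ≠ h v) := (h.injective.ne_iff).symm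
      exact decide_eq_decide.mpr this
    · match l with
      | [] => rw [hM.2.1, List.map_nil, hM'.2.1]
      | [x] => exact H1 x
      | [x, y] =>
        apply Prod.ext
        · rw [(hM.2.2.2.1 x y).1]
          exact ((hM'.2.2.2.1 (h x) (h y)).1).symm
        · exact (H2 x y).symm
      | x :: y :: z :: t =>
        rw [hM.2.2.2.2 (x :: y :: z :: t) (by simp),
          hM'.2.2.2.2 ((x :: y :: z :: t).map h) (by simp)]

end Pool.Agent.CW
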